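import Pool.Agent.Helper4.EAM.REP

set_option autoImplicit false

namespace Pool.Agent.Helper4.EAM

open Pool.H47EA Pool.Agent.Helper35.EAM Pool.Agent.Helper35.EAM2

theorem adj1 (s : ℤ × ℤ) (j : Fin 4) (q k : ℕ) : dist1 (P s j q k) (P s j q (k + 1)) = 1 := by
  obtain ⟨a, b⟩ := s
  have hl := lp_cases q k
  have hl' := lp_cases q (k + 1)
  rcases fin4 j with rfl | rfl | rfl | rfl <;>
    simp only [P0, P1, P2, P3, vec_dist] <;>
    rcases hl with ⟨e1, e2, e3⟩ | ⟨e1, e2, e3, e4⟩ | ⟨e1, e2, e3⟩ <;>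
    rcases hl' with ⟨f1, f2, f3⟩ | ⟨f1, f2, f3, f4⟩ | ⟨f1, f2, f3⟩ <;>
    rw [e1, e2, f1, f2] <;> omega

set_option maxHeartbeats 4000000 in
theorem adj_aux (s s' : ℤ × ℤ) (j j' : Fin 4) (q q' k k' : ℕ) (hq : q < 60) (hq' : q' < 60)
    (h0 : 0 < k) (h1 : k < 246) (h2 : 0 < k') (h3 : k' < 246)
    (h : dist1 (P s j q k) (P s' j' q' k') = 1) : s = s' ∧ j = j' := by
  obtain ⟨a, b⟩ := s
  obtain ⟨a', b'⟩ := s'
  have hl := lp_cases q k
  have hl' := lp_cases q' k'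
  rcases fin4 j with rfl | rfl | rfl | rfl <;> rcases fin4 j' with rfl | rfl | rfl | rfl <;>
    simp only [P0, P1, P2, P3, vec_dist] at h <;>
    rcases hl with ⟨e1, e2, e3⟩ | ⟨e1, e2, e3, e4⟩ | ⟨e1, e2, e3⟩ <;>
    rcases hl' with ⟨f1, f2, f3⟩ | ⟨f1, f2, f3, f4⟩ | ⟨f1, f2, f3⟩ <;>
    rw [e1, e2, f1, f2] at h <;>
    first
    | (exfalso; omega)
    | (refine ⟨Prod.ext ?_ ?_, rfl⟩ <;> simp only <;> omega)

theorem adj_k (s : ℤ × ℤ) (j : Fin 4) (q k k' : ℕ)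
    (h : dist1 (P s j q k) (P s j q k') = 1) : k' = k + 1 ∨ k = k' + 1 := by
  obtain ⟨a, b⟩ := s
  have hl := lp_cases q k
  have hl' := lp_cases q k'
  rcases fin4 j with rfl | rfl | rfl | rfl <;>
    simp only [P0, P1, P2, P3, vec_dist] at h <;>
    rcases hl with ⟨e1, e2, e3⟩ | ⟨e1, e2, e3, e4⟩ | ⟨e1, e2, e3⟩ <;>
    rcases hl' with ⟨f1, f2, f3⟩ | ⟨f1, f2, f3, f4⟩ | ⟨f1, f2, f3⟩ <;>
    rw [e1, e2, f1, f2] at h <;> omega

theorem lp_zero (q : ℕ) : Pool.Agent.Helper35.EAM2.lp q 0 = (0, 0) := by simp [Pool.Agent.Helper35.EAM2.lp]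
theorem lp_end (q : ℕ) (hq : q < 60) : Pool.Agent.Helper35.EAM2.lp q 246 = (244, 0) := by
  unfold Pool.Agent.Helper35.EAM2.lp
  rw [if_neg (by omega), if_neg (by omega), if_neg (by omega), if_neg (by omega)]
  norm_num

theorem corner (s : ℤ × ℤ) (j : Fin 4) (q k : ℕ) (hq : q < 60) (hk : k = 0 ∨ k = 246) :
    ∃ u v, P s j q k = crn u v := by
  obtain ⟨a, b⟩ := s
  rcases hk with rfl | rfl <;> rcases fin4 j with rfl | rfl | rfl | rfl <;>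
    simp only [P0, P1, P2, P3, crn, lp_zero, lp_end q hq, vec_eq, and_true]
  · exact ⟨2 * a - b, b, by ring, by ring⟩
  · exact ⟨2 * a - b, b + 1, by ring, by ring⟩
  · exact ⟨2 * a - b, b, by ring, by ring⟩
  · exact ⟨2 * a - b + 1, b, by ring, by ring⟩
  · exact ⟨2 * a - b + 1, b, by ring, by ring⟩
  · exact ⟨2 * a - b + 1, b + 1, by ring, by ring⟩
  · exact ⟨2 * a - b, b + 1, by ring, by ring⟩
  · exact ⟨2 * a - b + 1, b + 1, by ring, by ring⟩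

theorem adj_c (s : ℤ × ℤ) (j : Fin 4) (q k : ℕ) (u v : ℤ) (hq : q < 60) (hk : k ≤ 246)
    (h : dist1 (P s j q k) (crn u v) = 1) :
    (k = 1 ∧ crn u v = P s j q 0) ∨ (k = 245 ∧ crn u v = P s j q 246) := by
  obtain ⟨a, b⟩ := s
  have hl := lp_cases q k
  rcases fin4 j with rfl | rfl | rfl | rfl <;>
    simp only [P0, P1, P2, P3, crn, lp_zero, lp_end q hq, vec_eq, vec_dist, and_true] at h ⊢ <;>
    rcases hl with ⟨e1, e2, e3⟩ | ⟨e1, e2, e3, e4⟩ | ⟨e1, e2, e3⟩ <;>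
    rw [e1, e2] at h <;> omega

theorem dist1_comm' (x y : Site 3) : dist1 x y = dist1 y x := by
  unfold dist1
  refine Finset.sum_congr rfl fun i _ => ?_
  omega

theorem t_ADJ : S_ADJ := by
  intro nt hn
  refine ⟨fun s j k _ => adj1 s j _ k, ?_, fun s j k u v hk h => adj_c s j _ k u v (hn _ _) hk h⟩
  intro s s' j j' k k' hk hk' h
  by_cases c : k = 0 ∨ k = 246
  · obtain ⟨u, v, e⟩ := corner s j (nt s j) k (hn _ _) c
    rw [dist1_comm', e] at h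
    rcases adj_c s' j' _ k' u v (hn _ _) hk' h with ⟨h1, h2⟩ | ⟨h1, h2⟩
    · refine ⟨s', j', 0, Or.inr rfl, by omega, Or.inl ⟨by rw [e, h2], by rw [h1]⟩⟩
    · refine ⟨s', j', 245, Or.inr rfl, by omega, Or.inr ⟨by rw [h1], by rw [e, h2]⟩⟩
  · by_cases c' : k' = 0 ∨ k' = 246
    · obtain ⟨u, v, e⟩ := corner s' j' (nt s' j') k' (hn _ _) c'
      rw [e] at h
      rcases adj_c s j _ k u v (hn _ _) hk h with ⟨h1, h2⟩ | ⟨h1, h2⟩
      · refine ⟨s, j, 0, Or.inl rfl, by omega, Or.inr ⟨by rw [e, h2], by rw [h1]⟩⟩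
      · refine ⟨s, j, 245, Or.inl rfl, by omega, Or.inl ⟨by rw [h1], by rw [e, h2]⟩⟩
    · obtain ⟨rfl, rfl⟩ := adj_aux s s' j j' _ _ k k' (hn _ _) (hn _ _) (by omega) (by omega)
        (by omega) (by omega) h
      rcases adj_k s j _ k k' h with rfl | rfl
      · exact ⟨s, j, k, Or.inl rfl, by omega, Or.inl ⟨rfl, rfl⟩⟩
      · exact ⟨s, j, k', Or.inl rfl, by omega, Or.inr ⟨rfl, rfl⟩⟩

end Pool.Agent.Helper4.EAM
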