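import Pool.Agent.Helper35.EAM.Spec2

set_option autoImplicit false

namespace Pool.Agent.Helper4.EAM

open Pool.H47EA Pool.Agent.Helper35.EAM Pool.Agent.Helper35.EAM2

theorem lp_cases (q k : ℕ) :
    ((Pool.Agent.Helper35.EAM2.lp q k).2 = 0 ∧ (Pool.Agent.Helper35.EAM2.lp q k).1 = k ∧ k ≤ 4 * q + 3) ∨
    ((Pool.Agent.Helper35.EAM2.lp q k).2 = 1 ∧ (Pool.Agent.Helper35.EAM2.lp q k).1 = (k : ℤ) - 1 ∧ 4 * q + 4 ≤ k ∧ k ≤ 4 * q + 6) ∨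
    ((Pool.Agent.Helper35.EAM2.lp q k).2 = 0 ∧ (Pool.Agent.Helper35.EAM2.lp q k).1 = (k : ℤ) - 2 ∧ 4 * q + 7 ≤ k) := by
  unfold Pool.Agent.Helper35.EAM2.lp
  split_ifs <;> simp <;> omega

theorem fin4 (j : Fin 4) : j = 0 ∨ j = 1 ∨ j = 2 ∨ j = 3 := by
  fin_cases j <;> simp

theorem P0 (s : ℤ × ℤ) (q k : ℕ) : P s 0 q k =
    ![244 * (2 * s.1 - s.2) + (Pool.Agent.Helper35.EAM2.lp q k).1, 244 * s.2 + (Pool.Agent.Helper35.EAM2.lp q k).2, 0] := rfl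
theorem P1 (s : ℤ × ℤ) (q k : ℕ) : P s 1 q k =
    ![244 * (2 * s.1 - s.2) + (Pool.Agent.Helper35.EAM2.lp q k).1, 244 * s.2 + 244 - (Pool.Agent.Helper35.EAM2.lp q k).2, 0] := rfl
theorem P2 (s : ℤ × ℤ) (q k : ℕ) : P s 2 q k =
    ![244 * (2 * s.1 - s.2) + (Pool.Agent.Helper35.EAM2.lp q k).2, 244 * s.2 + (Pool.Agent.Helper35.EAM2.lp q k).1, 0] := rfl
theorem P3 (s : ℤ × ℤ) (q k : ℕ) : P s 3 q k =
    ![244 * (2 * s.1 - s.2) + 244 - (Pool.Agent.Helper35.EAM2.lp q k).2, 244 * s.2 + (Pool.Agent.Helper35.EAM2.lp q k).1, 0] := rfl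

theorem vec_eq (a b c a' b' c' : ℤ) : ((![a, b, c] : Site 3) = ![a', b', c']) ↔ a = a' ∧ b = b' ∧ c = c' := by
  constructor
  · intro h
    exact ⟨congrFun h 0, congrFun h 1, congrFun h 2⟩
  · rintro ⟨rfl, rfl, rfl⟩; rfl

theorem vec_dist (a b c a' b' c' : ℤ) : dist1 (![a, b, c] : Site 3) ![a', b', c'] =
    (a - a').natAbs + (b - b').natAbs + (c - c').natAbs := by
  simp [dist1, Fin.sum_univ_three]

theorem rep_aux (s s' : ℤ × ℤ) (j j' : Fin 4) (q q' k k' : ℕ) (hq : q < 60) (hq' : q' < 60)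
    (h0 : 0 < k) (h1 : k < 246) (h2 : k' ≤ 246) (h : P s j q k = P s' j' q' k') :
    s = s' ∧ j = j' := by
  obtain ⟨a, b⟩ := s
  obtain ⟨a', b'⟩ := s'
  have hl := lp_cases q k
  have hl' := lp_cases q' k'
  rcases fin4 j with rfl | rfl | rfl | rfl <;> rcases fin4 j' with rfl | rfl | rfl | rfl <;>
    simp only [P0, P1, P2, P3, vec_eq] at h <;>
    rcases hl with ⟨e1, e2, e3⟩ | ⟨e1, e2, e3, e4⟩ | ⟨e1, e2, e3⟩ <;>
    rcases hl' with ⟨f1, f2, f3⟩ | ⟨f1, f2, f3, f4⟩ | ⟨f1, f2, f3⟩ <;>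
    rw [e1, e2, f1, f2] at h <;>
    first
    | (exfalso; omega)
    | (refine ⟨Prod.ext ?_ ?_, rfl⟩ <;> simp only <;> omega)

theorem rep_k (s : ℤ × ℤ) (j : Fin 4) (q k k' : ℕ) (h : P s j q k = P s j q k') : k = k' := by
  obtain ⟨a, b⟩ := s
  have hl := lp_cases q k
  have hl' := lp_cases q k'
  rcases fin4 j with rfl | rfl | rfl | rfl <;>
    simp only [P0, P1, P2, P3, vec_eq] at h <;>
    rcases hl with ⟨e1, e2, e3⟩ | ⟨e1, e2, e3, e4⟩ | ⟨e1, e2, e3⟩ <;>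
    rcases hl' with ⟨f1, f2, f3⟩ | ⟨f1, f2, f3, f4⟩ | ⟨f1, f2, f3⟩ <;>
    rw [e1, e2, f1, f2] at h <;> omega

theorem t_REP : S_REP := by
  intro nt hn s s' j j' k k' h0 h1 h2 h
  obtain ⟨rfl, rfl⟩ := rep_aux s s' j j' _ _ k k' (hn _ _) (hn _ _) h0 h1 h2 h
  exact ⟨rfl, rfl, rep_k _ _ _ _ _ h⟩

end Pool.Agent.Helper4.EAM
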